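import Pool.Agent.PDM.Stmts

/-! PDM, module OPB: a strip instead of an edge, on symbolic states. -/

set_option autoImplicit false

namespace Pool.Agent.PDM.H3

open Pool.Agent.PDN

theorem tri_rot {V : Type} (T : Tri V) {s p : ℕ × ℕ × ℕ} (nm : ℕ → V) (h : IsRot s p)
    (hs : T.f (nm s.1) (nm s.2.1) (nm s.2.2)) : T.f (nm p.1) (nm p.2.1) (nm p.2.2) := by
  rcases h with rfl | rfl | rfl
  · exact hs
  · exact T.cyc hs
  · exact T.cyc (T.cyc hs)

theorem free_rot {V : Type} {T : Tri V} {U : V → V → V → Prop} (hU : Free T U)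
    {s p : ℕ × ℕ × ℕ} (nm : ℕ → V) (h : IsRot s p) (hs : ¬ U (nm s.1) (nm s.2.1) (nm s.2.2)) :
    ¬ U (nm p.1) (nm p.2.1) (nm p.2.2) := by
  intro hp
  apply hs
  rcases h with rfl | rfl | rfl
  · exact hp
  · exact hU.rot (hU.rot hp)
  · exact hU.rot hp

/-- OPB -/
theorem opb (str : StrStmt) : OpbStmt := by
  classical
  intro k F mk dg M h u v a a' L hF1 hF2 haa F' dg' hF' hdg'
  obtain ⟨V, _, T, nm, U, hcon, hfree, hinj, hF, hdeg, hmk, hM⟩ := h
  -- the faces
  have face : ∀ p, Rt F p → p.1 < k ∧ p.2.1 < k ∧ p.2.2 < k ∧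
      T.f (nm p.1) (nm p.2.1) (nm p.2.2) ∧ ¬ U (nm p.1) (nm p.2.1) (nm p.2.2) := by
    rintro p ⟨s, hs, hsp⟩
    obtain ⟨h1, h2, h3, h4, h5⟩ := hF s hs
    refine ⟨?_, ?_, ?_, tri_rot T nm hsp h4, free_rot hfree nm hsp h5⟩ <;>
      rcases hsp with rfl | rfl | rfl <;> assumption
  obtain ⟨hu, hv, ha, f1, nU1⟩ := face _ hF1
  obtain ⟨_, _, ha', f2, nU2⟩ := face _ hF2
  simp only at hu hv ha ha' f1 nU1 f2 nU2
  have haa' : nm a ≠ nm a' := fun h => haa (hinj _ _ ha ha' h)
  have nuv : nm u ≠ nm v := T.ne f1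
  have nua : nm a ≠ nm u := T.ne (T.cyc (T.cyc f1))
  have nva : nm v ≠ nm a := T.ne (T.cyc f1)
  have nua' : nm u ≠ nm a' := T.ne (T.cyc f2)
  have nva' : nm a' ≠ nm v := T.ne (T.cyc (T.cyc f2))
  obtain ⟨W, _, T', ι, g1, g2, g3, g4, g5, g6, g7, g8, g9⟩ :=
    str V T (nm u) (nm v) (nm a) (nm a') L f1 f2 haa' hcon
  -- the faces which contain `u` and `v` are not free
  have both : ∀ x y z, T.f x y z → ((nm u = x ∨ nm u = y ∨ nm u = z) ∧
      (nm v = x ∨ nm v = y ∨ nm v = z)) → ¬ U x y z := by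
    rintro x y z hf ⟨h1, h2⟩ hU
    rcases h1 with rfl | rfl | rfl
    · rcases h2 with h2 | rfl | rfl
      · exact nuv h2.symm
      · rw [← T.uniq f1 hf] at hU
        exact nU1 hU
      · rw [← T.uniq f2 (T.cyc (T.cyc hf))] at hU
        exact nU2 (hfree.rot (hfree.rot hU))
    · rcases h2 with rfl | h2 | rfl
      · rw [← T.uniq f2 hf] at hU
        exact nU2 hU
      · exact nuv h2.symm
      · rw [← T.uniq f1 (T.cyc hf)] at hU
        exact nU1 (hfree.rot hU)
    · rcases h2 with rfl | rfl | h2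
      · rw [← T.uniq f1 (T.cyc (T.cyc hf))] at hU
        exact nU1 (hfree.rot (hfree.rot hU))
      · rw [← T.uniq f2 (T.cyc hf)] at hU
        exact nU2 (hfree.rot hU)
      · exact nuv h2.symm
  -- the new free faces
  obtain ⟨U', hU'⟩ : ∃ U' : W → W → W → Prop, ∀ x y z, U' x y z ↔
      ∃ x₀ y₀ z₀, U x₀ y₀ z₀ ∧ ι x₀ = x ∧ ι y₀ = y ∧ ι z₀ = z := ⟨_, fun _ _ _ => Iff.rfl⟩
  have hUi : ∀ x y z, U' (ι x) (ι y) (ι z) ↔ U x y z := by
    intro x y z
    rw [hU']
    constructor
    · rintro ⟨x₀, y₀, z₀, h, h1, h2, h3⟩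
      rw [← ι.injective h1, ← ι.injective h2, ← ι.injective h3]
      exact h
    · intro h
      exact ⟨x, y, z, h, rfl, rfl, rfl⟩
  have hfree' : Free T' U' := by
    refine ⟨?_, ?_, ?_⟩
    · intro x y z h
      obtain ⟨x₀, y₀, z₀, q, rfl, rfl, rfl⟩ := (hU' _ _ _).1 h
      exact g1 _ _ _ (hfree.sub q) fun hb => both _ _ _ (hfree.sub q) hb q
    · intro x y z h
      obtain ⟨x₀, y₀, z₀, q, rfl, rfl, rfl⟩ := (hU' _ _ _).1 h
      exact (hUi _ _ _).2 (hfree.rot q)
    · intro x y z y' z' h h'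
      obtain ⟨x₀, y₀, z₀, q, rfl, rfl, rfl⟩ := (hU' _ _ _).1 h
      obtain ⟨x₁, y₁, z₁, q', h1, rfl, rfl⟩ := (hU' _ _ _).1 h'
      rw [ι.injective h1] at q'
      rw [hfree.disj q q']
  have hMk : ∀ x, Mk U' (ι x) ↔ Mk U x := by
    intro x
    constructor
    · rintro ⟨y, z, h⟩
      obtain ⟨x₀, y₀, z₀, q, h1, rfl, rfl⟩ := (hU' _ _ _).1 h
      rw [ι.injective h1] at q
      exact ⟨_, _, q⟩
    · rintro ⟨y, z, h⟩
      exact ⟨_, _, (hUi _ _ _).2 h⟩
  have hMk' : ∀ w, w ∉ Set.range ι → ¬ Mk U' w := by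
    rintro w hw ⟨y, z, h⟩
    obtain ⟨x₀, y₀, z₀, q, rfl, rfl, rfl⟩ := (hU' _ _ _).1 h
    exact hw ⟨x₀, rfl⟩
  refine ⟨W, inferInstance, T', fun i => ι (nm i), U', g9, hfree', ?_, ?_, ?_, ?_, ?_⟩
  · intro i j hi hj hij
    exact hinj i j hi hj (ι.injective hij)
  · intro p hp
    obtain ⟨hp1, hp2⟩ := hF' p hp
    obtain ⟨h1, h2, h3, h4, h5⟩ := face p hp1
    refine ⟨h1, h2, h3, g1 _ _ _ h4 ?_, fun h => h5 ((hUi _ _ _).1 h)⟩
    rintro ⟨h6, h7⟩
    apply hp2
    refine ⟨?_, ?_⟩
    · rcases h6 with h6 | h6 | h6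
      · exact Or.inl (hinj _ _ hu h1 h6)
      · exact Or.inr (Or.inl (hinj _ _ hu h2 h6))
      · exact Or.inr (Or.inr (hinj _ _ hu h3 h6))
    · rcases h7 with h6 | h6 | h6
      · exact Or.inl (hinj _ _ hv h1 h6)
      · exact Or.inr (Or.inl (hinj _ _ hv h2 h6))
      · exact Or.inr (Or.inr (hinj _ _ hv h3 h6))
  · intro i hi
    rw [hdg' i hi, ← hdeg i hi]
    have e : ∀ j, j < k → (nm i = nm j ↔ i = j) := fun j hj =>
      ⟨hinj i j hi hj, fun h => by rw [h]⟩
    by_cases h1 : i = u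
    · subst h1
      rw [if_pos (Or.inl rfl), if_neg, add_zero]
      · exact g2
      · rintro (h | h)
        · exact nua (by rw [h])
        · exact nua' (by rw [h])
    · by_cases h2 : i = v
      · subst h2
        rw [if_pos (Or.inr rfl), if_neg, add_zero]
        · exact g3
        · rintro (h | h)
          · exact nva (by rw [h])
          · exact nva' (by rw [h])
      · rw [if_neg (by tauto), add_zero]
        by_cases h3 : i = a
        · subst h3
          rw [if_pos (Or.inl rfl)]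
          exact g4
        · by_cases h4 : i = a'
          · subst h4
            rw [if_pos (Or.inr rfl)]
            exact g5
          · rw [if_neg (by tauto), add_zero]
            exact g6 _ (mt (e u hu).1 h1) (mt (e v hv).1 h2) (mt (e a ha).1 h3)
              (mt (e a' ha').1 h4)
  · intro i hi
    rw [hMk]
    exact hmk i hi
  · have hsplit : (Finset.univ.filter fun w : W => ∀ i, i < k → w ≠ ι (nm i)).val =
        ((Finset.univ.filter fun x : V => ∀ i, i < k → x ≠ nm i).map ι).val +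
          (Finset.univ.filter fun w : W => w ∉ Set.range ι).val := by
      have hd : Disjoint ((Finset.univ.filter fun x : V => ∀ i, i < k → x ≠ nm i).map ι)
          (Finset.univ.filter fun w : W => w ∉ Set.range ι) := by
        rw [Finset.disjoint_left]
        intro w hw hw'
        obtain ⟨x, _, rfl⟩ := Finset.mem_map.1 hw
        exact (Finset.mem_filter.1 hw').2 ⟨x, rfl⟩
      rw [← Finset.disjUnion_val (h := hd)]
      congr 1
      ext w
      rw [Finset.mem_disjUnion, Finset.mem_map, Finset.mem_filter, Finset.mem_filter]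
      constructor
      · rintro ⟨_, h⟩
        by_cases hw : w ∈ Set.range ι
        · obtain ⟨x, rfl⟩ := hw
          left
          refine ⟨x, ?_, rfl⟩
          rw [Finset.mem_filter]
          exact ⟨Finset.mem_univ _, fun i hi hx => h i hi (by rw [hx])⟩
        · right
          exact ⟨Finset.mem_univ _, hw⟩
      · rintro (⟨x, hx, rfl⟩ | ⟨_, hw⟩)
        · refine ⟨Finset.mem_univ _, fun i hi h => ?_⟩
          exact (Finset.mem_filter.1 hx).2 i hi (ι.injective h)
        · refine ⟨Finset.mem_univ _, fun i hi h => hw ⟨nm i, h.symm⟩⟩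
    have hcard : (Finset.univ.filter fun w : W => w ∉ Set.range ι).val.card = L + 1 := by
      have h1 : (Finset.univ.filter fun w : W => w ∉ Set.range ι) =
          (Finset.univ.map ι)ᶜ := by
        ext w
        simp
      rw [Finset.card_val, h1, Finset.card_compl, Finset.card_map, Finset.card_univ]
      rw [Nat.card_eq_fintype_card, Nat.card_eq_fintype_card] at g8
      omega
    have h2 : ((Finset.univ.filter fun w : W => w ∉ Set.range ι).val.map
        fun w => (T'.deg w, decide (Mk U' w))) = Multiset.replicate (L + 1) (4, false) := by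
      rw [← hcard, ← Multiset.map_const']
      refine Multiset.map_congr rfl fun w hw => ?_
      have hw0 : w ∈ Finset.univ.filter fun w : W => w ∉ Set.range ι := hw
      have hw' := (Finset.mem_filter.1 hw0).2
      rw [g7 w hw', decide_eq_false (hMk' w hw')]
    have h1 : (((Finset.univ.filter fun x : V => ∀ i, i < k → x ≠ nm i).map ι).val.map
        fun w => (T'.deg w, decide (Mk U' w))) = M := by
      rw [← hM, Finset.map_val, Multiset.map_map]
      refine Multiset.map_congr rfl fun x hx => ?_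
      have hx0 : x ∈ Finset.univ.filter fun x : V => ∀ i, i < k → x ≠ nm i := hx
      have hx' := (Finset.mem_filter.1 hx0).2
      rw [Function.comp_apply, g6 x (hx' u hu) (hx' v hv) (hx' a ha) (hx' a' ha')]
      exact congrArg (Prod.mk _) (decide_eq_decide.2 (hMk x))
    rw [hsplit, Multiset.map_add, h1, h2]

end Pool.Agent.PDM.H3
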